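import Pool.Agent.Y575.LD.Defs

/-!
# The topology on `ω₁ × ω` of a ladder system (job LD-TOP, by helper588)
-/

namespace Pool.Agent.Y588.LD.TOP

open Cardinal Set Topology Pool.Agent.Y575.LD

/-- `In L k x y`: the point `y` is in the `k`-th basic neighbourhood of `x`. -/
inductive In (L : W1 → ℕ → W1) : ℕ → (W1 × ℕ) → (W1 × ℕ) → Prop
  | self (k : ℕ) (x : W1 × ℕ) : In L k x x
  | step (k : ℕ) (α : W1) (m j : ℕ) (y : W1 × ℕ) (hl : IsLad (L α) α) (hk : k ≤ j + 1)
      (hm : (Nat.unpair (j + 1)).1 = m) (hy : L α j < y.1)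
      (h : In L 0 (L α (j + 1), m) y) : In L k (α, m + 1) y

variable {L : W1 → ℕ → W1}

theorem lad_mono {f : ℕ → W1} {l : W1} (h : IsLad f l) : StrictMono f :=
  strictMono_nat_of_lt_succ h.1

theorem in_zero {k : ℕ} {α : W1} {y : W1 × ℕ} : In L k (α, 0) y ↔ y = (α, 0) := by
  constructor
  · intro h
    cases h
    rfl
  · rintro rfl
    exact In.self _ _

theorem in_succ {k m : ℕ} {α : W1} {y : W1 × ℕ} : In L k (α, m + 1) y ↔
    y = (α, m + 1) ∨ (IsLad (L α) α ∧ ∃ j, k ≤ j + 1 ∧ (Nat.unpair (j + 1)).1 = m ∧ L α j < y.1 ∧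
      In L 0 (L α (j + 1), m) y) := by
  constructor
  · intro h
    cases h
    · exact Or.inl rfl
    · exact Or.inr ⟨by assumption, _, by assumption, by assumption, by assumption, by assumption⟩
  · rintro (rfl | ⟨hl, j, hk, hm, hy, h⟩)
    · exact In.self _ _
    · exact In.step _ _ _ _ _ hl hk hm hy h

theorem In.anti {k k' : ℕ} (hk : k ≤ k') {x y : W1 × ℕ} (h : In L k' x y) : In L k x y := by
  obtain ⟨α, n⟩ := x
  rcases n with _ | m
  · rw [in_zero] at h ⊢
    exact h
  · rw [in_succ] at h ⊢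
    rcases h with h | ⟨hl, j, hk', h⟩
    · exact Or.inl h
    · exact Or.inr ⟨hl, j, hk.trans hk', h⟩

theorem In.le {k : ℕ} {x y : W1 × ℕ} (h : In L k x y) :
    y.1 ≤ x.1 ∧ y.2 ≤ x.2 ∧ (y.1 = x.1 → y = x) := by
  induction h with
  | self k x => exact ⟨le_rfl, le_rfl, fun _ => rfl⟩
  | step k α m j y hl hk hm hy h ih =>
      have h1 : y.1 < α := lt_of_le_of_lt ih.1 (hl.2.1 (j + 1))
      exact ⟨h1.le, ih.2.1.trans (Nat.le_succ m), fun h => absurd h h1.ne⟩

theorem In.gt (γ : W1) (x : W1 × ℕ) (h : γ < x.1) : ∃ k, ∀ y, In L k x y → γ < y.1 := by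
  obtain ⟨α, n⟩ := x
  rcases n with _ | m
  · refine ⟨0, fun y hy => ?_⟩
    rw [in_zero] at hy
    rw [hy]
    exact h
  by_cases hl : IsLad (L α) α
  · obtain ⟨i, hi⟩ := hl.2.2 γ h
    refine ⟨i + 1, fun y hy => ?_⟩
    rw [in_succ] at hy
    rcases hy with hy | ⟨-, j, hk, hm, hy, h⟩
    · rw [hy]
      exact h
    · exact (lt_of_lt_of_le hi ((lad_mono hl).monotone (by omega : i ≤ j))).trans hy
  · refine ⟨0, fun y hy => ?_⟩
    rw [in_succ] at hy
    rcases hy with hy | ⟨hl', -⟩
    · rw [hy]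
      exact h
    · exact absurd hl' hl

theorem In.ope {k : ℕ} {x y : W1 × ℕ} (h : In L k x y) :
    ∃ k', ∀ z, In L k' y z → In L k x z := by
  induction h with
  | self k x => exact ⟨k, fun z hz => hz⟩
  | step k α m j y hl hk hm hy h ih =>
      obtain ⟨k1, h1⟩ := ih
      obtain ⟨k2, h2⟩ := In.gt (L := L) (L α j) y hy
      refine ⟨max k1 k2, fun z hz => ?_⟩
      exact In.step _ _ _ _ _ hl hk hm (h2 z (hz.anti (le_max_right _ _)))
        (h1 z (hz.anti (le_max_left _ _)))

theorem In.ne {x y : W1 × ℕ} (h : y ≠ x) : ∃ k, ¬ In L k y x := by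
  rcases lt_or_ge x.1 y.1 with h1 | h1
  · obtain ⟨k, hk⟩ := In.gt (L := L) x.1 y h1
    exact ⟨k, fun hh => lt_irrefl _ (hk x hh)⟩
  · refine ⟨0, fun hh => h ?_⟩
    exact (hh.le.2.2 (le_antisymm hh.le.1 h1)).symm

theorem In.clo : ∀ (n : ℕ) (α : W1) (k : ℕ) (y : W1 × ℕ), ¬ In L k (α, n) y →
    ∃ k', ∀ z, In L k' y z → ¬ In L k (α, n) z := by
  intro n
  induction n with
  | zero =>
      intro α k y hy
      have hne : y ≠ (α, 0) := fun h => hy (h ▸ In.self _ _)
      obtain ⟨k', hk'⟩ := In.ne (L := L) hne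
      refine ⟨k', fun z hz h => ?_⟩
      rw [in_zero] at h
      rw [h] at hz
      exact hk' hz
  | succ m ih =>
      intro α k y hy
      have hne : y ≠ (α, m + 1) := fun h => hy (h ▸ In.self _ _)
      obtain ⟨k0, hk0⟩ := In.ne (L := L) hne
      by_cases hl : IsLad (L α) α
      swap
      · refine ⟨k0, fun z hz h => ?_⟩
        rw [in_succ] at h
        rcases h with h | ⟨hl', -⟩
        · rw [h] at hz
          exact hk0 hz
        · exact hl hl'
      have hmono := lad_mono hl
      rcases lt_trichotomy α y.1 with hα | hα | hα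
      · obtain ⟨k1, hk1⟩ := In.gt (L := L) α y hα
        refine ⟨k1, fun z hz h => ?_⟩
        exact absurd (hk1 z hz) (not_lt.2 h.le.1)
      · obtain ⟨a, n'⟩ := y
        simp only at hα
        subst hα
        refine ⟨k0, fun z hz h => ?_⟩
        rw [in_succ] at h
        rcases h with h | ⟨-, j, hk, hm, hzj, h⟩
        · rw [h] at hz
          exact hk0 hz
        · rcases n' with _ | m'
          · rw [in_zero] at hz
            subst hz
            exact hy (In.step _ _ _ _ _ hl hk hm hzj h)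
          · rw [in_succ] at hz
            rcases hz with hz | ⟨-, j', hk', hm', hzj', h'⟩
            · subst hz
              exact hy (In.step _ _ _ _ _ hl hk hm hzj h)
            · have e1 : z.1 ≤ L α (j + 1) := h.le.1
              have e2 : z.1 ≤ L α (j' + 1) := h'.le.1
              have e3 : j < j' + 1 := hmono.lt_iff_lt.1 (lt_of_lt_of_le hzj e2)
              have e4 : j' < j + 1 := hmono.lt_iff_lt.1 (lt_of_lt_of_le hzj' e1)
              have e5 : j = j' := by omega
              subst e5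
              exact hne (by rw [← hm, ← hm'])
      · have hex : ∃ j, y.1 ≤ L α j := by
          obtain ⟨j, hj⟩ := hl.2.2 y.1 hα
          exact ⟨j, hj.le⟩
        classical
        obtain ⟨j, hj, hmin⟩ : ∃ j, y.1 ≤ L α j ∧ ∀ i, i < j → L α i < y.1 :=
          ⟨Nat.find hex, Nat.find_spec hex, fun i hi => not_le.1 (Nat.find_min hex hi)⟩
        rcases j with _ | i
        · refine ⟨k0, fun z hz h => ?_⟩
          rw [in_succ] at h
          rcases h with h | ⟨-, j, hk, hm, hzj, h⟩
          · rw [h] at hz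
            exact hk0 hz
          · have e1 : z.1 ≤ L α 0 := hz.le.1.trans hj
            exact absurd (hmono.lt_iff_lt.1 (lt_of_lt_of_le hzj e1)) (by omega)
        · have hi := hmin i (Nat.lt_succ_self i)
          obtain ⟨k1, hk1⟩ := In.gt (L := L) (L α i) y hi
          by_cases hc : k ≤ i + 1 ∧ (Nat.unpair (i + 1)).1 = m
          · have hn : ¬ In L 0 (L α (i + 1), m) y := fun hh =>
              hy (In.step _ _ _ _ _ hl hc.1 hc.2 hi hh)
            obtain ⟨k2, hk2⟩ := ih _ _ _ hn
            refine ⟨max k0 (max k1 k2), fun z hz h => ?_⟩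
            have hz0 := hz.anti (le_max_left _ _)
            have hz1 := hz.anti ((le_max_left _ _).trans (le_max_right _ _))
            have hz2 := hz.anti ((le_max_right _ _).trans (le_max_right _ _))
            rw [in_succ] at h
            rcases h with h | ⟨-, j, hk, hm, hzj, h⟩
            · rw [h] at hz0
              exact hk0 hz0
            · have e1 : z.1 ≤ L α (i + 1) := hz.le.1.trans hj
              have e2 : L α i < z.1 := hk1 z hz1
              have e3 : j < i + 1 := hmono.lt_iff_lt.1 (lt_of_lt_of_le hzj e1)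
              have e4 : i < j + 1 := hmono.lt_iff_lt.1 (lt_of_lt_of_le e2 h.le.1)
              have e5 : j = i := by omega
              subst e5
              exact hk2 z hz2 h
          · refine ⟨max k0 k1, fun z hz h => ?_⟩
            have hz0 := hz.anti (le_max_left _ _)
            have hz1 := hz.anti (le_max_right _ _)
            rw [in_succ] at h
            rcases h with h | ⟨-, j, hk, hm, hzj, h⟩
            · rw [h] at hz0
              exact hk0 hz0
            · have e1 : z.1 ≤ L α (i + 1) := hz.le.1.trans hj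
              have e2 : L α i < z.1 := hk1 z hz1
              have e3 : j < i + 1 := hmono.lt_iff_lt.1 (lt_of_lt_of_le hzj e1)
              have e4 : i < j + 1 := hmono.lt_iff_lt.1 (lt_of_lt_of_le e2 h.le.1)
              have e5 : j = i := by omega
              subst e5
              exact hc ⟨hk, hm⟩

/-- The topology. -/
@[reducible] def topo (L : W1 → ℕ → W1) : TopologicalSpace (W1 × ℕ) where
  IsOpen U := ∀ x ∈ U, ∃ k, ∀ y, In L k x y → y ∈ U
  isOpen_univ := fun x _ => ⟨0, fun y _ => mem_univ y⟩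
  isOpen_inter := by
    intro s t hs ht x hx
    obtain ⟨k1, h1⟩ := hs x hx.1
    obtain ⟨k2, h2⟩ := ht x hx.2
    exact ⟨max k1 k2, fun y hy => ⟨h1 y (hy.anti (le_max_left _ _)),
      h2 y (hy.anti (le_max_right _ _))⟩⟩
  isOpen_sUnion := by
    intro s hs x hx
    obtain ⟨t, ht, hxt⟩ := hx
    obtain ⟨k, hk⟩ := hs t ht x hxt
    exact ⟨k, fun y hy => ⟨t, ht, hk y hy⟩⟩

theorem isOpen_topo (U : Set (W1 × ℕ)) :
    IsOpen[topo L] U ↔ ∀ x ∈ U, ∃ k, ∀ y, In L k x y → y ∈ U := Iff.rfl

theorem countable_Iic (a : W1) : (Iic a).Countable := by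
  have h : (Iio a).Countable := by
    have h1 : #(Iio a) < ℵ₁ := Cardinal.mk_Iio_ord_toType a
    have h2 : #(Iio a) ≤ ℵ₀ :=
      Order.lt_succ_iff.1 (lt_of_lt_of_eq h1 Cardinal.succ_aleph0.symm)
    exact Cardinal.le_aleph0_iff_set_countable.1 h2
  have : Iic a = insert a (Iio a) := by
    ext b
    simp [le_iff_eq_or_lt]
  rw [this]
  exact h.insert a

theorem top : S_TOP := by
  intro L
  refine ⟨topo L, ?_⟩
  let τ := topo L
  have hopen : ∀ k x, IsOpen[topo L] {y | In L k x y} := by
    intro k x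
    rw [isOpen_topo]
    intro y hy
    exact In.ope hy
  have hclosed : ∀ k x, IsClosed[topo L] {y | In L k x y} := by
    intro k x
    rw [← isOpen_compl_iff, isOpen_topo]
    intro y hy
    obtain ⟨a, n⟩ := x
    exact In.clo n a k y hy
  have hbasis : ∀ x, (@nhds _ (topo L) x).HasBasis (fun _ : ℕ => True) (fun k => {y | In L k x y}) := by
    intro x
    constructor
    intro t
    rw [@mem_nhds_iff _ (topo L)]
    constructor
    · rintro ⟨U, hU, hUo, hx⟩
      obtain ⟨k, hk⟩ := (isOpen_topo U).1 hUo x hx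
      exact ⟨k, trivial, fun y hy => hU (hk y hy)⟩
    · rintro ⟨k, -, hk⟩
      exact ⟨_, hk, hopen k x, In.self _ _⟩
  refine ⟨?_, ?_, ?_, ?_, ?_, ?_, ?_⟩
  · exact @FirstCountableTopology.mk _ (topo L)
      (fun x => (Filter.HasCountableBasis.mk (hbasis x) (Set.to_countable _)).isCountablyGenerated)
  · intro x
    refine ⟨{y | In L 0 x y}, hopen 0 x, In.self _ _, ?_⟩
    refine Set.Countable.mono (s₂ := (Iic x.1) ×ˢ (Iic x.2)) ?_
      ((countable_Iic x.1).prod (Set.to_countable _))
    intro y hy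
    exact ⟨(In.le hy).1, (In.le hy).2.1⟩
  · refine @T1Space.mk _ (topo L) (fun x => ?_)
    rw [← isOpen_compl_iff, isOpen_topo]
    intro y hy
    obtain ⟨k, hk⟩ := In.ne (L := L) (x := x) (y := y) hy
    refine ⟨k, fun z hz hzx => hk ?_⟩
    rw [mem_singleton_iff] at hzx
    rw [← hzx]
    exact hz
  · refine @RegularSpace.of_exists_mem_nhds_isClosed_subset _ (topo L) (fun x s hs => ?_)
    obtain ⟨k, -, hk⟩ := (hbasis x).mem_iff.1 hs
    exact ⟨_, (hbasis x).mem_of_mem (i := k) trivial, hclosed k x, hk⟩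
  · intro g
    constructor
    · rw [← isOpen_compl_iff, isOpen_topo]
      intro x hx
      simp only [mem_compl_iff, mem_setOf_eq, not_le] at hx
      obtain ⟨k, hk⟩ := In.gt (L := L) g x hx
      refine ⟨k, fun y hy => ?_⟩
      simp only [mem_compl_iff, mem_setOf_eq, not_le]
      exact hk y hy
    · rw [isOpen_topo]
      intro x hx
      exact ⟨0, fun y hy => (In.le hy).1.trans hx⟩
  · intro n
    rw [← isOpen_compl_iff, isOpen_topo]
    intro x hx
    simp only [mem_compl_iff, mem_setOf_eq, not_le] at hx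
    refine ⟨0, fun y hy => ?_⟩
    simp only [mem_compl_iff, mem_setOf_eq, not_le]
    exact (In.le hy).2.1.trans_lt hx
  · intro l m hl H hH hit
    by_contra hn
    rw [← isOpen_compl_iff, isOpen_topo] at hH
    obtain ⟨k, hk⟩ := hH (l, m + 1) hn
    obtain ⟨j, hj, hjm, hjH⟩ := hit (k + 1)
    obtain ⟨i, rfl⟩ : ∃ i, j = i + 1 := ⟨j - 1, by omega⟩
    exact hk (L l (i + 1), m) (In.step _ _ _ _ _ hl (by omega) hjm (hl.1 i) (In.self _ _)) hjH

end Pool.Agent.Y588.LD.TOP
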